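import Mathlib
import Pool.Agent.W506.H2

/-!
Elementary facts on depth in terms of `Ext^i(Q, X) = 0` for `i < k`.
-/

set_option autoImplicit false

open CategoryTheory Abelian Limits

namespace Pool.Agent.N108.NC

open Pool.Agent.W506.Hilb

universe u

section

variable {R : Type u} [CommRing R] (Q : Type u) [AddCommGroup Q] [Module R Q]

/-- `Ext^i(Q, X) = 0` for all `i < k`. -/
def Dp (X : Type u) [AddCommGroup X] [Module R X] (k : ℕ) : Prop :=
  ∀ i : ℕ, i < k → Subsingleton (Ext (ModuleCat.of R Q) (ModuleCat.of R X) i)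

variable {Q}
variable {A B C : Type u} [AddCommGroup A] [AddCommGroup B] [AddCommGroup C]
    [Module R A] [Module R B] [Module R C]

lemma Dp.mono {k l : ℕ} (h : Dp (R := R) Q A l) (hkl : k ≤ l) : Dp (R := R) Q A k :=
  fun i hi => h i (by omega)

lemma dp_left {k : ℕ} (f : A →ₗ[R] B) (g : B →ₗ[R] C)
    (hf : Function.Injective f) (hg : Function.Surjective g) (h : Function.Exact f g)
    (hB : Dp (R := R) Q B (k + 1)) (hC : Dp (R := R) Q C k) : Dp (R := R) Q A (k + 1) := by
  intro i hi
  have hS := sc_shortExact f g hf hg h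
  have hB' := hB i hi
  constructor
  intro a b
  have key : ∀ e : Ext (ModuleCat.of R Q) (sc f g h).X₁ i, e = 0 := by
    intro e
    have e0 : e.comp (Ext.mk₀ (sc f g h).f) (add_zero i) = 0 := hB'.elim _ _
    rcases i with _ | i
    · obtain ⟨a, rfl⟩ := (Ext.mk₀_bijective _ _).2 e
      rw [Ext.mk₀_comp_mk₀] at e0
      have e1 : a ≫ (sc f g h).f = 0 := by
        rw [← Ext.mk₀_zero] at e0
        exact (Ext.mk₀_bijective _ _).1 e0
      have := hS.mono_f
      have e2 : a = 0 := by
        rw [← cancel_mono (sc f g h).f, e1, zero_comp]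
      rw [e2, Ext.mk₀_zero]
    · obtain ⟨y, hy⟩ := Ext.covariant_sequence_exact₁ _ hS e e0 (n₀ := i) rfl
      have hC' := hC i (by omega)
      have hy0 : y = 0 := hC'.elim _ _
      rw [← hy, hy0, Ext.zero_comp]
  exact (key a).trans (key b).symm

lemma dp_right {k : ℕ} (f : A →ₗ[R] B) (g : B →ₗ[R] C)
    (hf : Function.Injective f) (hg : Function.Surjective g) (h : Function.Exact f g)
    (hA : Dp (R := R) Q A (k + 1)) (hB : Dp (R := R) Q B k) : Dp (R := R) Q C k := by
  intro i hi
  have hS := sc_shortExact f g hf hg h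
  have hA' := hA (i + 1) (by omega)
  have hB' := hB i hi
  constructor
  intro a b
  have key : ∀ e : Ext (ModuleCat.of R Q) (sc f g h).X₃ i, e = 0 := by
    intro e
    have e0 : e.comp hS.extClass (rfl : i + 1 = i + 1) = 0 := hA'.elim _ _
    obtain ⟨y, hy⟩ := Ext.covariant_sequence_exact₃ _ hS e rfl e0
    have hy0 : y = 0 := hB'.elim _ _
    rw [← hy, hy0, Ext.zero_comp]
  exact (key a).trans (key b).symm

lemma dp_retract {k : ℕ} (i : A →ₗ[R] B) (p : B →ₗ[R] A) (hip : p ∘ₗ i = LinearMap.id)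
    (h : Dp (R := R) Q B k) : Dp (R := R) Q A k := by
  intro j hj
  have h3 := h j hj
  constructor
  intro a b
  have key : ∀ e : Ext (ModuleCat.of R Q) (ModuleCat.of R A) j, e = 0 := by
    intro e
    have e1 : e.comp (Ext.mk₀ (ModuleCat.ofHom i)) (add_zero j) = 0 := h3.elim _ _
    have e2 : (e.comp (Ext.mk₀ (ModuleCat.ofHom i)) (add_zero j)).comp
        (Ext.mk₀ (ModuleCat.ofHom p)) (add_zero j) = e := by
      rw [Ext.comp_assoc_of_second_deg_zero, Ext.mk₀_comp_mk₀]
      have : ModuleCat.ofHom i ≫ ModuleCat.ofHom p = 𝟙 (ModuleCat.of R A) := by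
        rw [← ModuleCat.ofHom_comp, hip]
        rfl
      rw [this, Ext.comp_mk₀_id]
    rw [← e2, e1, Ext.zero_comp]
  rw [key a, key b]

lemma dp_equiv {k : ℕ} (e : A ≃ₗ[R] B) (h : Dp (R := R) Q B k) : Dp (R := R) Q A k :=
  dp_retract e.toLinearMap e.symm.toLinearMap (by ext x; simp) h

lemma dp_subsingleton {k : ℕ} [Subsingleton A] : Dp (R := R) Q A k := by
  intro i _
  have h1 : Limits.IsZero (ModuleCat.of R A) := ModuleCat.isZero_of_subsingleton _
  constructor
  intro a b
  have key : ∀ e : Ext (ModuleCat.of R Q) (ModuleCat.of R A) i, e = 0 := by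
    intro e
    have : e = e.comp (Ext.mk₀ (𝟙 (ModuleCat.of R A))) (add_zero i) := by
      rw [Ext.comp_mk₀_id]
    rw [this, h1.eq_of_src (𝟙 (ModuleCat.of R A)) 0, Ext.mk₀_zero, Ext.comp_zero]
  rw [key a, key b]

lemma dp_mid {k : ℕ} (f : A →ₗ[R] B) (g : B →ₗ[R] C)
    (hf : Function.Injective f) (hg : Function.Surjective g) (h : Function.Exact f g)
    (hA : Dp (R := R) Q A k) (hC : Dp (R := R) Q C k) : Dp (R := R) Q B k := by
  intro i hi
  have hS := sc_shortExact f g hf hg h
  have hA' := hA i hi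
  have hC' := hC i hi
  constructor
  intro a b
  have key : ∀ e : Ext (ModuleCat.of R Q) (sc f g h).X₂ i, e = 0 := by
    intro e
    have e0 : e.comp (Ext.mk₀ (sc f g h).g) (add_zero i) = 0 := hC'.elim _ _
    obtain ⟨y, hy⟩ := Ext.covariant_sequence_exact₂ _ hS e e0
    have hy0 : y = 0 := hA'.elim _ _
    rw [← hy, hy0, Ext.zero_comp]
  exact (key a).trans (key b).symm

lemma dp_pi {k : ℕ} (h : Dp (R := R) Q A k) (n : ℕ) : Dp (R := R) Q (Fin n → A) k := by
  induction n with
  | zero => exact dp_subsingleton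
  | succ n ih =>
    let e : (Fin (n + 1) → A) ≃ₗ[R] A × (Fin n → A) := Fin.consLinearEquiv R (fun _ => A) |>.symm
    refine dp_equiv e ?_
    refine dp_mid (LinearMap.inl R A (Fin n → A)) (LinearMap.snd R A (Fin n → A)) ?_ ?_ ?_ h ih
    · exact LinearMap.inl_injective
    · exact LinearMap.snd_surjective
    · exact Function.Exact.inl_snd

lemma dp_one_iff : Dp (R := R) Q A 1 ↔ ∀ f : Q →ₗ[R] A, f = 0 := by
  constructor
  · intro h f
    have h0 := h 0 (by omega)
    have e0 : Ext.mk₀ (ModuleCat.ofHom f) = Ext.mk₀ 0 := h0.elim _ _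
    have := (Ext.mk₀_bijective _ _).1 e0
    have h2 := congrArg ModuleCat.Hom.hom this
    simpa using h2
  · intro h i hi
    obtain rfl : i = 0 := by omega
    constructor
    intro a b
    obtain ⟨a, rfl⟩ := (Ext.mk₀_bijective _ _).2 a
    obtain ⟨b, rfl⟩ := (Ext.mk₀_bijective _ _).2 b
    have ha : a = 0 := by
      apply ModuleCat.hom_ext
      exact h _
    have hb : b = 0 := by
      apply ModuleCat.hom_ext
      exact h _
    rw [ha, hb]

lemma dp_one_sub (N : Submodule R A) (h : Dp (R := R) Q A 1) : Dp (R := R) Q N 1 := by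
  rw [dp_one_iff] at h ⊢
  intro f
  have := h (N.subtype ∘ₗ f)
  ext x
  have h2 := LinearMap.congr_fun this x
  simpa using h2

/-- The dual-type modules `Hom(Z, X)` have depth at least two if `X` has. -/
lemma dp_hom [IsNoetherianRing R] (Z : Type u) [AddCommGroup Z] [Module R Z] [Module.Finite R Z]
    (h : Dp (R := R) Q A 2) : Dp (R := R) Q (Z →ₗ[R] A) 2 := by
  obtain ⟨n, p, hp⟩ := Module.Finite.exists_fin' R Z
  obtain ⟨m, q, hq⟩ := Module.Finite.exists_fin' R (LinearMap.ker p)
  let r : ((Fin n → R) →ₗ[R] A) →ₗ[R] ((Fin m → R) →ₗ[R] A) :=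
    LinearMap.lcomp R A ((LinearMap.ker p).subtype ∘ₗ q)
  let f : (Z →ₗ[R] A) →ₗ[R] ((Fin n → R) →ₗ[R] A) := LinearMap.lcomp R A p
  have hA : ∀ n : ℕ, Dp (R := R) Q ((Fin n → R) →ₗ[R] A) 2 := by
    intro n
    exact dp_equiv (LinearEquiv.piRing R A (Fin n) R) (dp_pi h n)
  refine dp_left f r.rangeRestrict ?_ r.surjective_rangeRestrict ?_ (hA n)
    (dp_one_sub _ ((hA m).mono (by omega)))
  · intro a b hab
    ext z
    obtain ⟨y, rfl⟩ := hp z
    exact LinearMap.congr_fun hab y
  · intro y
    constructor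
    · intro hy
      have hy' : ∀ v, y (q v).1 = 0 := by
        intro v
        have := congrArg Subtype.val hy
        exact LinearMap.congr_fun this v
      have hker : LinearMap.ker p ≤ LinearMap.ker y := by
        intro x hx
        obtain ⟨v, hv⟩ := hq ⟨x, hx⟩
        rw [LinearMap.mem_ker]
        have := hy' v
        rw [hv] at this
        exact this
      refine ⟨(LinearMap.ker p).liftQ y hker ∘ₗ
        (LinearMap.quotKerEquivOfSurjective p hp).symm.toLinearMap, ?_⟩
      ext x
      change (LinearMap.ker p).liftQ y hker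
        ((LinearMap.quotKerEquivOfSurjective p hp).symm (p _)) = _
      have e : (LinearMap.quotKerEquivOfSurjective p hp).symm (p (Pi.single x 1)) =
          (LinearMap.ker p).mkQ (Pi.single x 1) := by
        rw [LinearEquiv.symm_apply_eq]
        rfl
      simp only [LinearMap.coe_single]
      rw [e]
      rfl
    · rintro ⟨z, rfl⟩
      apply Subtype.ext
      ext v
      change z (p (q _).1) = 0
      have := (q (Pi.single v 1)).2
      rw [LinearMap.mem_ker] at this
      simp only [LinearMap.coe_single]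
      rw [this, map_zero]

end

end Pool.Agent.N108.NC
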