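import Pool.Agent.N108.NC.Depth

set_option autoImplicit false
set_option linter.unusedSectionVars false

open CategoryTheory Abelian Limits

namespace Pool.Agent.N108.NC

open Pool.Agent.W506.Hilb

universe u

section

variable {R : Type u} [CommRing R]
variable {A B C Y : Type u} [AddCommGroup A] [AddCommGroup B] [AddCommGroup C] [AddCommGroup Y]
    [Module R A] [Module R B] [Module R C] [Module R Y]

lemma ext_one (f : A →ₗ[R] B) (g : B →ₗ[R] C)
    (hf : Function.Injective f) (hg : Function.Surjective g) (h : Function.Exact f g)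
    [Module.Projective R B] (hext : ∀ θ : A →ₗ[R] Y, ∃ η : B →ₗ[R] Y, η ∘ₗ f = θ) :
    Subsingleton (Ext (ModuleCat.of R C) (ModuleCat.of R Y) 1) := by
  have hS := sc_shortExact f g hf hg h
  have hP : Projective (sc f g h).X₂ := (IsProjective.iff_projective B).1 inferInstance
  constructor
  intro a b
  have key : ∀ e : Ext (sc f g h).X₃ (ModuleCat.of R Y) 1, e = 0 := by
    intro e
    obtain ⟨y, hy⟩ := Ext.contravariant_sequence_exact₃ hS _ e (Ext.eq_zero_of_projective _)
      (n₀ := 0) rfl
    obtain ⟨y, rfl⟩ := (Ext.mk₀_bijective _ _).2 y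
    obtain ⟨η, hη⟩ := hext y.hom
    let η' : (sc f g h).X₂ ⟶ ModuleCat.of R Y := ModuleCat.ofHom η
    have e1 : y = (sc f g h).f ≫ η' := by
      apply ModuleCat.hom_ext
      exact hη.symm
    rw [← hy, e1, ← Ext.mk₀_comp_mk₀]
    exact hS.extClass_comp_assoc _
  exact (key a).trans (key b).symm

lemma ext_succ (f : A →ₗ[R] B) (g : B →ₗ[R] C)
    (hf : Function.Injective f) (hg : Function.Surjective g) (h : Function.Exact f g)
    [Module.Projective R B] (n : ℕ)
    (hA : Subsingleton (Ext (ModuleCat.of R A) (ModuleCat.of R Y) (n + 1))) :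
    Subsingleton (Ext (ModuleCat.of R C) (ModuleCat.of R Y) (n + 2)) := by
  have hS := sc_shortExact f g hf hg h
  have hP : Projective (sc f g h).X₂ := (IsProjective.iff_projective B).1 inferInstance
  constructor
  intro a b
  have key : ∀ e : Ext (sc f g h).X₃ (ModuleCat.of R Y) (n + 2), e = 0 := by
    intro e
    obtain ⟨y, hy⟩ := Ext.contravariant_sequence_exact₃ hS _ e (Ext.eq_zero_of_projective _)
      (n₀ := n + 1) (by omega)
    have : y = 0 := hA.elim _ _
    rw [← hy, this, Ext.comp_zero]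
  exact (key a).trans (key b).symm

end

section dual

variable {S : Type u} [CommRing S]
variable {K F M : Type u} [AddCommGroup K] [AddCommGroup F] [AddCommGroup M]
    [Module S K] [Module S F] [Module S M]

/-- the cokernel of the restriction `F^∨ → K^∨` -/
abbrev DD (ι : K →ₗ[S] F) : Type u := Module.Dual S K ⧸ LinearMap.range ι.dualMap

lemma torsionless (F : Type u) [AddCommGroup F] [Module S F] [Module.Projective S F] (x : F)
    (h : ∀ ν : Module.Dual S F, ν x = 0) : x = 0 :=
  (Module.forall_dual_apply_eq_zero_iff S x).1 h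

variable (ι : K →ₗ[S] F) (p : F →ₗ[S] M) (hι : Function.Injective ι) (hp : Function.Surjective p)
  (hex : Function.Exact ι p)
  [Module.Projective S K] [Module.Finite S K] [Module.Projective S F] [Module.Finite S F]
  (hsep : ∀ m : M, (∀ ν : Module.Dual S M, ν m = 0) → m = 0)
  (heval : ∀ θ : Module.Dual S M →ₗ[S] S, ∃ m : M, ∀ ν, θ ν = ν m)

include hι in
lemma DD_hom (θ : DD ι →ₗ[S] S) : θ = 0 := by
  obtain ⟨k, hk⟩ := (Module.bijective_dual_eval S K).2 (θ ∘ₗ (LinearMap.range ι.dualMap).mkQ)
  have h1 : ι k = 0 := by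
    apply torsionless (S := S)
    intro ν
    have h2 : (Module.Dual.eval S K k) (ι.dualMap ν) =
        θ ((LinearMap.range ι.dualMap).mkQ (ι.dualMap ν)) := by
      rw [hk]; rfl
    have h3 : (LinearMap.range ι.dualMap).mkQ (ι.dualMap ν) = 0 := by
      rw [Submodule.mkQ_apply, Submodule.Quotient.mk_eq_zero]
      exact ⟨ν, rfl⟩
    rw [h3, map_zero] at h2
    exact h2
  have h4 : k = 0 := hι (by rw [h1, map_zero])
  rw [h4, map_zero] at hk
  apply LinearMap.ext
  intro x
  obtain ⟨x, rfl⟩ := Submodule.mkQ_surjective _ x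
  exact (LinearMap.congr_fun hk x).symm

include hex hsep in
lemma Z1_extend (θ : LinearMap.range ι.dualMap →ₗ[S] S) :
    ∃ η : Module.Dual S K →ₗ[S] S, η ∘ₗ (LinearMap.range ι.dualMap).subtype = θ := by
  obtain ⟨f, hf⟩ := (Module.bijective_dual_eval S F).2 (θ ∘ₗ ι.dualMap.rangeRestrict)
  have hf' : ∀ ν : Module.Dual S F, θ (ι.dualMap.rangeRestrict ν) = ν f := by
    intro ν
    have := LinearMap.congr_fun hf ν
    exact this.symm
  have h1 : p f = 0 := by
    apply hsep
    intro μ
    have h2 := hf' (μ ∘ₗ p)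
    have h3 : ι.dualMap.rangeRestrict (μ ∘ₗ p) = 0 := by
      apply Subtype.ext
      ext k
      change μ (p (ι k)) = 0
      rw [hex.apply_apply_eq_zero, map_zero]
    rw [h3, map_zero] at h2
    exact h2.symm
  obtain ⟨k, hk⟩ := (hex f).1 h1
  refine ⟨Module.Dual.eval S K k, ?_⟩
  apply LinearMap.ext
  intro x
  obtain ⟨ν, rfl⟩ := ι.dualMap.surjective_rangeRestrict x
  rw [hf']
  change ν (ι k) = ν f
  rw [hk]

include hex hp heval in
lemma ker_extend (θ : LinearMap.ker ι.dualMap →ₗ[S] S) :
    ∃ η : Module.Dual S F →ₗ[S] S, η ∘ₗ (LinearMap.ker ι.dualMap).subtype = θ := by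
  let j : Module.Dual S M →ₗ[S] LinearMap.ker ι.dualMap := p.dualMap.codRestrict _ (by
    intro μ
    rw [LinearMap.mem_ker]
    ext k
    change μ (p (ι k)) = 0
    rw [hex.apply_apply_eq_zero, map_zero])
  obtain ⟨m, hm⟩ := heval (θ ∘ₗ j)
  obtain ⟨f, rfl⟩ := hp m
  refine ⟨Module.Dual.eval S F f, ?_⟩
  apply LinearMap.ext
  intro x
  obtain ⟨μ, rfl⟩ : ∃ μ, j μ = x := by
    have hx : LinearMap.ker p ≤ LinearMap.ker x.1 := by
      intro y hy
      obtain ⟨k, rfl⟩ := (hex y).1 hy
      exact LinearMap.congr_fun x.2 k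
    refine ⟨(LinearMap.ker p).liftQ x.1 hx ∘ₗ
        (LinearMap.quotKerEquivOfSurjective p hp).symm.toLinearMap, ?_⟩
    apply Subtype.ext
    apply LinearMap.ext
    intro y
    change (LinearMap.ker p).liftQ x.1 hx
        ((LinearMap.quotKerEquivOfSurjective p hp).symm (p y)) = _
    have e : (LinearMap.quotKerEquivOfSurjective p hp).symm (p y) = (LinearMap.ker p).mkQ y := by
      rw [LinearEquiv.symm_apply_eq]
      rfl
    rw [e]
    rfl
  exact (hm μ).symm

include hι hp hex hsep heval in
lemma DD_ext : ∀ i : ℕ, i < 3 →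
    Subsingleton (Ext (ModuleCat.of S (DD ι)) (ModuleCat.of S S) i) := by
  have h1 : Subsingleton (Ext (ModuleCat.of S (DD ι)) (ModuleCat.of S S) 1) :=
    ext_one (A := LinearMap.range ι.dualMap) (B := Module.Dual S K) (Y := S)
      (LinearMap.range ι.dualMap).subtype (LinearMap.range ι.dualMap).mkQ
      (Submodule.injective_subtype _) (Submodule.mkQ_surjective _)
      (LinearMap.exact_subtype_mkQ _) (Z1_extend ι p hex hsep)
  have h2 : Subsingleton (Ext (ModuleCat.of S (DD ι)) (ModuleCat.of S S) 2) := by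
    refine ext_succ (A := LinearMap.range ι.dualMap) (B := Module.Dual S K) (Y := S)
      (LinearMap.range ι.dualMap).subtype (LinearMap.range ι.dualMap).mkQ
      (Submodule.injective_subtype _) (Submodule.mkQ_surjective _)
      (LinearMap.exact_subtype_mkQ _) 0 ?_
    refine ext_one (A := LinearMap.ker ι.dualMap) (B := Module.Dual S F) (Y := S)
      (LinearMap.ker ι.dualMap).subtype ι.dualMap.rangeRestrict
      (Submodule.injective_subtype _) ι.dualMap.surjective_rangeRestrict ?_
      (ker_extend ι p hp hex heval)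
    intro y
    simp only [LinearMap.rangeRestrict, Subtype.ext_iff]
    simp
  have h0 : Subsingleton (Ext (ModuleCat.of S (DD ι)) (ModuleCat.of S S) 0) :=
    (dp_one_iff.2 (DD_hom ι hι)) 0 (by omega)
  intro i hi
  interval_cases i
  · exact h0
  · exact h1
  · exact h2

include hp hex in
/-- If `a` kills the cokernel of `F^∨ → K^∨` then `a` is, on `M`, of the form `p ∘ s`. -/
lemma exists_section (a : S) (ha : a ∈ Module.annihilator S (DD ι)) :
    ∃ s : M →ₗ[S] F, ∀ m, p (s m) = a • m := by
  -- extend `a • id_K` to `F → K`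
  obtain ⟨n, q, j, -, -, hjq⟩ := Module.Finite.exists_comp_eq_id_of_projective S K
  have h1 : ∀ i : Fin n, ∃ ν : Module.Dual S F, ∀ k, ν (ι k) = a * j k i := by
    intro i
    have h2 := Module.mem_annihilator.1 ha
      ((LinearMap.range ι.dualMap).mkQ (LinearMap.proj i ∘ₗ j))
    rw [← map_smul, Submodule.mkQ_apply, Submodule.Quotient.mk_eq_zero] at h2
    obtain ⟨ν, hν⟩ := h2
    exact ⟨ν, fun k => LinearMap.congr_fun hν k⟩
  choose ν hν using h1
  let r : F →ₗ[S] K := q ∘ₗ LinearMap.pi ν
  have hr : ∀ k, r (ι k) = a • k := by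
    intro k
    have e : LinearMap.pi ν (ι k) = a • j k := by
      ext i
      exact hν i k
    change q (LinearMap.pi ν (ι k)) = a • k
    rw [e, map_smul]
    congr 1
    exact LinearMap.congr_fun hjq k
  let t : F →ₗ[S] F := a • LinearMap.id - ι ∘ₗ r
  have ht : LinearMap.ker p ≤ LinearMap.ker t := by
    intro y hy
    obtain ⟨k, rfl⟩ := (hex y).1 hy
    rw [LinearMap.mem_ker]
    change a • ι k - ι (r (ι k)) = 0
    rw [hr, map_smul, sub_self]
  refine ⟨(LinearMap.ker p).liftQ t ht ∘ₗ
        (LinearMap.quotKerEquivOfSurjective p hp).symm.toLinearMap, ?_⟩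
  intro m
  obtain ⟨y, rfl⟩ := hp m
  have e : (LinearMap.quotKerEquivOfSurjective p hp).symm (p y) = (LinearMap.ker p).mkQ y := by
    rw [LinearEquiv.symm_apply_eq]
    rfl
  rw [LinearMap.comp_apply, LinearEquiv.coe_coe, e]
  change p (a • y - ι (r y)) = _
  rw [map_sub, map_smul, hex.apply_apply_eq_zero, sub_zero]

end dual

end Pool.Agent.N108.NC
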