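import Pool.Agent.TH215.TM.AsmMM
import Pool.Agent.N108.NC.ExtD

set_option autoImplicit false

open CategoryTheory Abelian Limits RingTheory.Sequence Module

namespace Pool.Agent.N108.NC

open Pool.Agent.TH215.TM

universe u

lemma supportDim_add_length_le {R : Type u} [CommRing R] [IsNoetherianRing R] (rs : List R) :
    ∀ (M : Type u) [AddCommGroup M] [Module R M] [Module.Finite R M], IsRegular M rs →
    supportDim R (M ⧸ Ideal.ofList rs • (⊤ : Submodule R M)) + rs.length ≤ supportDim R M := by
  induction rs with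
  | nil =>
    intro M _ _ _ _
    rw [Ideal.ofList_nil, Submodule.bot_smul]
    simpa using (supportDim_eq_of_equiv (Submodule.quotEquivOfEqBot ⊥ rfl)).le
  | cons x rs' ih =>
    intro M _ _ _ reg
    have h1 := ih _ ((isRegular_cons_iff M _ _).mp reg).2
    have h2 : supportDim R (QuotSMulTop x M) + 1 ≤ supportDim R M :=
      supportDim_quotSMulTop_succ_le_of_notMem_minimalPrimes
        (fun _ => ((isRegular_cons_iff M _ _).mp reg).1.notMem_of_mem_minimalPrimes)
    rw [supportDim_eq_of_equiv (Submodule.quotOfListConsSMulTopEquivQuotSMulTopInner M x _)]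
    refine le_trans ?_ h2
    rw [List.length_cons, Nat.cast_add, ← add_assoc, Nat.cast_one]
    gcongr

lemma dim_S3 : ringKrullDim S3 = 3 := by
  rw [MvPolynomial.ringKrullDim_of_isNoetherianRing, ringKrullDim_eq_zero_of_field]
  simp

lemma maximal_of_regular (rs : List S3) (hl : rs.length = 3) (hr : IsRegular S3 rs)
    (q : Ideal S3) [hq : q.IsPrime] (hrq : ∀ r ∈ rs, r ∈ q) : q.IsMaximal := by
  have h1 := supportDim_add_length_le rs S3 hr
  rw [supportDim_self_eq_ringKrullDim, dim_S3, hl, smul_eq_mul, Ideal.mul_top,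
    supportDim_quotient_eq_ringKrullDim] at h1
  have h2 : ringKrullDim (S3 ⧸ Ideal.ofList rs) ≤ 0 := by
    generalize ringKrullDim (S3 ⧸ Ideal.ofList rs) = d at h1
    induction d with
    | bot => exact bot_le
    | coe d =>
      induction d with
      | top => exact absurd h1 (by decide)
      | coe d =>
        have h2 : (((d + 3 : ℕ) : ℕ∞) : WithBot ℕ∞) ≤ (((3 : ℕ) : ℕ∞) : WithBot ℕ∞) := h1
        rw [WithBot.coe_le_coe, Nat.cast_le] at h2
        have : d = 0 := by omega
        rw [this]
        rfl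
  have h3 : Ring.KrullDimLE 0 (S3 ⧸ Ideal.ofList rs) := Ring.krullDimLE_iff.2 (by simpa using h2)
  have hle : Ideal.ofList rs ≤ q := by
    rw [Ideal.ofList, Ideal.span_le]
    exact hrq
  have h4 : (q.map (Ideal.Quotient.mk (Ideal.ofList rs))).IsPrime :=
    Ideal.map_isPrime_of_surjective Ideal.Quotient.mk_surjective (by rwa [Ideal.mk_ker])
  have h5 : (q.map (Ideal.Quotient.mk (Ideal.ofList rs))).IsMaximal := Ideal.isMaximal_of_isPrime _
  have h6 := Ideal.comap_isMaximal_of_surjective (Ideal.Quotient.mk (Ideal.ofList rs))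
    Ideal.Quotient.mk_surjective (K := q.map (Ideal.Quotient.mk (Ideal.ofList rs)))
  rwa [Ideal.comap_map_of_surjective _ Ideal.Quotient.mk_surjective, ← RingHom.ker_eq_comap_bot,
    Ideal.mk_ker, sup_eq_left.2 hle] at h6

section

variable {K F M : Type} [AddCommGroup K] [AddCommGroup F] [AddCommGroup M]
    [Module S3 K] [Module S3 F] [Module S3 M]
variable (ι : K →ₗ[S3] F) (p : F →ₗ[S3] M) (hι : Function.Injective ι)
  (hp : Function.Surjective p)
  (hex : Function.Exact ι p)
  [Module.Projective S3 K] [Module.Finite S3 K] [Module.Projective S3 F] [Module.Finite S3 F]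
  (hsep : ∀ m : M, (∀ ν : Module.Dual S3 M, ν m = 0) → m = 0)
  (heval : ∀ θ : Module.Dual S3 M →ₗ[S3] S3, ∃ m : M, ∀ ν, θ ν = ν m)

include hι hp hex hsep heval in
/-- A prime which contains all `a` such that `a • id_M` lifts to `F` is maximal. -/
theorem prime_maximal (q : Ideal S3) [hq : q.IsPrime]
    (h : ∀ a : S3, (∃ s : M →ₗ[S3] F, ∀ m, p (s m) = a • m) → a ∈ q) : q.IsMaximal := by
  set I := Module.annihilator S3 (DD ι) with hI
  have hIq : I ≤ q := fun a ha => h a (exists_section ι p hp hex a ha)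
  have hItop : I ≠ ⊤ := fun h => hq.ne_top (top_le_iff.1 (h ▸ hIq))
  have hfin : Module.Finite S3 (DD ι) := inferInstance
  obtain ⟨rs, hl, hm, hr⟩ := ModuleCat.exists_isRegular_of_exists_subsingleton_ext I 3
    (ModuleCat.of S3 S3) (by
      rw [smul_eq_mul, Ideal.mul_top]
      exact hItop.lt_top)
    (ModuleCat.of S3 (DD ι)) (Module.support_eq_zeroLocus)
    (DD_ext ι p hι hp hex hsep heval)
  exact maximal_of_regular rs hl hr q fun r hr => hIq (hm r hr)

end

end Pool.Agent.N108.NC
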