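import Pool.Agent.TH215.TM.Gor

/-!
The Frobenius extension `S → S[w]/(w⁴+g)`: `S`-linear functionals on `B`-modules.
-/

set_option autoImplicit false

open Pool.Agent.TH215.TM

universe u

namespace Pool.Agent.N108.NC

section

variable {S : Type u} [CommRing S] [Nontrivial S] (g : S)
variable {Z : Type u} [AddCommGroup Z] [Module S Z] [Module (AdjoinRoot (ff4 g)) Z]
  [IsScalarTower S (AdjoinRoot (ff4 g)) Z]

/-- the functional `λ` -/
noncomputable abbrev lam : AdjoinRoot (ff4 g) →ₗ[S] S := (bas g).coord 3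

lemma nondeg (y : AdjoinRoot (ff4 g)) (h : ∀ x, lam g (x * y) = 0) : y = 0 := by
  apply (pair_bijective g).1
  rw [map_zero]
  ext x
  rw [pair_apply]
  exact h x

lemma frob_exists (ν : Z →ₗ[S] S) :
    ∃ u : Z →ₗ[AdjoinRoot (ff4 g)] AdjoinRoot (ff4 g), ∀ z, ν z = lam g (u z) := by
  let e : AdjoinRoot (ff4 g) ≃ₗ[S] (AdjoinRoot (ff4 g) →ₗ[S] S) :=
    LinearEquiv.ofBijective (pair g) (pair_bijective g)
  let t : Z → (AdjoinRoot (ff4 g) →ₗ[S] S) := fun z =>
    ν ∘ₗ (LinearMap.toSpanSingleton (AdjoinRoot (ff4 g)) Z z).restrictScalars S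
  have ht : ∀ z x, t z x = ν (x • z) := fun z x => rfl
  have key : ∀ z x, lam g (x * e.symm (t z)) = ν (x • z) := by
    intro z x
    rw [← ht]
    have h1 : e (e.symm (t z)) = t z := e.apply_symm_apply _
    have h2 : e (e.symm (t z)) x = lam g (x * e.symm (t z)) := rfl
    rw [← h2, h1]
  refine ⟨{ toFun := fun z => e.symm (t z), map_add' := ?_, map_smul' := ?_ }, ?_⟩
  · intro a b
    rw [← sub_eq_zero]
    apply nondeg
    intro x
    rw [mul_sub, mul_add, map_sub, map_add, key, key, key, smul_add, map_add, sub_self]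
  · intro r a
    rw [← sub_eq_zero]
    apply nondeg
    intro x
    rw [RingHom.id_apply, smul_eq_mul, mul_sub, ← mul_assoc, map_sub, key, key, mul_smul, sub_self]
  · intro z
    have := key z 1
    rw [one_mul, one_smul] at this
    exact this.symm

variable [Module.IsReflexive (AdjoinRoot (ff4 g)) Z]

include g in
lemma refl_sep (z : Z) (h : ∀ ν : Z →ₗ[S] S, ν z = 0) : z = 0 := by
  have h1 : ∀ u : Module.Dual (AdjoinRoot (ff4 g)) Z, u z = 0 := by
    intro u
    apply nondeg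
    intro x
    exact h (lam g ∘ₗ ((x • u).restrictScalars S))
  apply (Module.bijective_dual_eval (AdjoinRoot (ff4 g)) Z).1
  rw [map_zero]
  exact LinearMap.ext h1

include g in
lemma refl_eval (θ : (Z →ₗ[S] S) →ₗ[S] S) : ∃ z : Z, ∀ ν : Z →ₗ[S] S, θ ν = ν z := by
  let L : Module.Dual (AdjoinRoot (ff4 g)) Z →ₗ[S] (Z →ₗ[S] S) :=
    { toFun := fun u => lam g ∘ₗ u.restrictScalars S
      map_add' := by intro a b; ext; simp
      map_smul' := by intro r a; ext; simp }
  obtain ⟨U, hU⟩ := frob_exists g (θ ∘ₗ L)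
  obtain ⟨z, hz⟩ := (Module.bijective_dual_eval (AdjoinRoot (ff4 g)) Z).2 U
  refine ⟨z, fun ν => ?_⟩
  obtain ⟨u, hu⟩ := frob_exists g ν
  have h1 : ν = L u := by
    ext z
    exact hu z
  have h2 : θ ν = lam g (U u) := by
    rw [h1]
    exact hU u
  rw [h2, ← hz, hu z]
  rfl

end

end Pool.Agent.N108.NC
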