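import Pool.Agent.N108.NC.Depth

/-!
Global dimension of a module-finite projective algebra over a local ring.
-/

set_option autoImplicit false
set_option linter.unusedSectionVars false

open CategoryTheory Abelian Limits Module TensorProduct

namespace Pool.Agent.N108.NC

open Pool.Agent.W506.Hilb

universe u

section restrict

variable {T Λ : Type u} [CommRing T] [Ring Λ] [Algebra T Λ] [Module.Projective T Λ]

lemma proj_restrict_of_proj (X : Type u) [AddCommGroup X] [Module Λ X] [Module T X]
    [IsScalarTower T Λ X] [Module.Projective Λ X] : Module.Projective T X := by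
  obtain ⟨s, hs⟩ := Module.projective_def'.1 (inferInstance : Module.Projective Λ X)
  classical
  have : Module.Projective T (X →₀ Λ) := Module.Projective.of_equiv (finsuppLequivDFinsupp T).symm
  refine Module.Projective.of_split (M := (X →₀ Λ)) (s.restrictScalars T)
    ((Finsupp.linearCombination Λ id).restrictScalars T) ?_
  ext x
  exact LinearMap.congr_fun hs x

lemma pdLT_restrict (k : ℕ) : ∀ (X : Type u) [AddCommGroup X] [Module Λ X] [Module T X]
    [IsScalarTower T Λ X], HasProjectiveDimensionLT (ModuleCat.of Λ X) (k + 1) →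
    PdLT T X (k + 1) := by
  induction k with
  | zero =>
    intro X _ _ _ _ h
    have h1 : Projective (ModuleCat.of Λ X) := projective_iff_hasProjectiveDimensionLT_one.2 h
    have h2 : Module.Projective Λ X := (IsProjective.iff_projective X).2 h1
    exact pdLT_one_of_projective (proj_restrict_of_proj (Λ := Λ) X)
  | succ k ih =>
    intro X _ _ _ _ h
    let π : (X →₀ Λ) →ₗ[Λ] X := Finsupp.linearCombination Λ id
    have hπ : Function.Surjective π := Finsupp.linearCombination_id_surjective Λ X
    let S1 : ShortComplex (ModuleCat.{u} Λ) := ShortComplex.mk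
      (X₁ := ModuleCat.of Λ (LinearMap.ker π)) (X₂ := ModuleCat.of Λ (X →₀ Λ))
      (X₃ := ModuleCat.of Λ X)
      (ModuleCat.ofHom (LinearMap.ker π).subtype) (ModuleCat.ofHom π) (by
        apply ModuleCat.hom_ext
        apply LinearMap.ext
        intro x
        exact x.2)
    have hS1 : S1.ShortExact := by
      refine ModuleCat.shortComplex_shortExact S1 ?_ ?_ ?_
      · exact LinearMap.exact_subtype_ker_map π
      · exact Subtype.val_injective
      · exact hπ
    have hP : Projective S1.X₂ := (IsProjective.iff_projective (X →₀ Λ)).1 inferInstance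
    have h1 : HasProjectiveDimensionLT S1.X₁ (k + 1) :=
      hS1.hasProjectiveDimensionLT_X₁ (k + 1)
        (hasProjectiveDimensionLT_of_ge _ 1 _ (by omega)) h
    have h2 : PdLT T (LinearMap.ker π) (k + 1) := ih _ h1
    have h3 : Module.Projective T (X →₀ Λ) := proj_restrict_of_proj (Λ := Λ) (X →₀ Λ)
    exact pdLT_right ((LinearMap.ker π).subtype.restrictScalars T) (π.restrictScalars T)
      (Submodule.injective_subtype _) hπ
      (LinearMap.exact_subtype_ker_map π) h2
      (pdLT_mono (by omega) (pdLT_one_of_projective h3))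

end restrict

section loc

variable (T Λ : Type u) [CommRing T] [IsLocalRing T] [IsNoetherianRing T] [Ring Λ] [Algebra T Λ]
  [Module.Finite T Λ] [Module.Projective T Λ] [Nontrivial Λ]

lemma exists_retraction : ∃ r : Λ →ₗ[T] T, r 1 = 1 := by
  have hfree : Module.Free T Λ := Module.free_of_flat_of_isLocalRing
  let b := Module.Free.chooseBasis T Λ
  by_cases h : ∃ i, b.repr 1 i ∉ IsLocalRing.maximalIdeal T
  · obtain ⟨i, hi⟩ := h
    have hu : IsUnit (b.repr 1 i) := by
      by_contra hn
      exact hi ((IsLocalRing.mem_maximalIdeal _).2 hn)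
    obtain ⟨u, hu⟩ := hu
    refine ⟨(↑u⁻¹ : T) • b.coord i, ?_⟩
    rw [LinearMap.smul_apply, Basis.coord_apply, ← hu, smul_eq_mul, Units.inv_mul]
  · push Not at h
    exfalso
    have h1 : (⊤ : Submodule T Λ) ≤ IsLocalRing.maximalIdeal T • ⊤ := by
      intro x _
      have h2 := b.sum_repr (1 : Λ)
      have h3 : x = ∑ i, b.repr 1 i • (x * b i) := by
        conv_lhs => rw [← mul_one x, ← h2, Finset.mul_sum]
        simp only [mul_smul_comm]
      rw [h3]
      exact Submodule.sum_mem _ fun i _ => Submodule.smul_mem_smul (h i) trivial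
    have h2 := Submodule.eq_bot_of_le_smul_of_le_jacobson_bot (IsLocalRing.maximalIdeal T)
      (⊤ : Submodule T Λ) Module.Finite.fg_top h1 (IsLocalRing.maximalIdeal_le_jacobson _)
    have h3 : (1 : Λ) ∈ (⊥ : Submodule T Λ) := h2 ▸ trivial
    exact one_ne_zero ((Submodule.mem_bot T).1 h3)

lemma pdLT_of_algebra (k : ℕ)
    (h : ∀ X : ModuleCat.{u} Λ, HasProjectiveDimensionLT X (k + 1))
    (N : Type u) [AddCommGroup N] [Module T N] : PdLT T N (k + 1) := by
  obtain ⟨r, hr⟩ := exists_retraction T Λ
  have h1 : PdLT T (Λ ⊗[T] N) (k + 1) := pdLT_restrict (Λ := Λ) k (Λ ⊗[T] N) (h _)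
  let i : N →ₗ[T] Λ ⊗[T] N := TensorProduct.mk T Λ N 1
  let q : Λ ⊗[T] N →ₗ[T] N := (TensorProduct.lid T N).toLinearMap ∘ₗ r.rTensor N
  have hqi : q ∘ₗ i = LinearMap.id := by
    ext x
    simp [q, i, hr]
  let R : Retract (ModuleCat.of T N) (ModuleCat.of T (Λ ⊗[T] N)) :=
    { i := ModuleCat.ofHom i
      r := ModuleCat.ofHom q
      retract := by
        rw [← ModuleCat.ofHom_comp, hqi]
        rfl }
  exact R.hasProjectiveDimensionLT (k + 1)

end loc

end Pool.Agent.N108.NC
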