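import Pool.Agent.N108.NC.Gl
import Pool.Agent.TH350.J294
import Pool.Agent.TH480.J295
import Pool.Agent.TH159.TM_CM

/-!
The local ring of `w⁴ + x³ + y³ + z³` at the origin has modules of infinite projective dimension.
-/

set_option autoImplicit false
set_option linter.unusedSectionVars false

open CategoryTheory Abelian Limits Module TensorProduct

namespace Pool.Agent.N108.NC

open Pool.Agent.TH215.TM Pool.Agent.TH350.J294 Pool.Agent.TH159.TM

universe u

section loc

lemma exact_loc {R T : Type u} [CommRing R] [IsDomain R] [CommRing T] [Algebra R T]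
    (S : Submonoid R) (hS : S ≤ nonZeroDivisors R) [IsLocalization S T] {n : Type}
    [Fintype n] [DecidableEq n] (P Q : Matrix n n R)
    (h : LinearMap.ker P.mulVecLin = LinearMap.range Q.mulVecLin) :
    LinearMap.ker (P.map (algebraMap R T)).mulVecLin =
      LinearMap.range (Q.map (algebraMap R T)).mulVecLin := by
  apply le_antisymm
  · intro v hv
    rw [LinearMap.mem_ker, Matrix.mulVecLin_apply] at hv
    obtain ⟨b, hb⟩ := IsLocalization.exist_integer_multiples_of_finite S v
    choose v' hv' using hb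
    have h1 : algebraMap R T ∘ v' = (b : R) • v := by
      funext i
      exact hv' i
    have h2 : P.mulVec v' = 0 := by
      funext i
      apply IsLocalization.injective T hS
      rw [Pi.zero_apply, map_zero, RingHom.map_mulVec, h1, Matrix.mulVec_smul, hv, smul_zero]
      rfl
    have h3 : v' ∈ LinearMap.range Q.mulVecLin := by
      rw [← h]
      exact h2
    obtain ⟨u, hu⟩ := h3
    rw [Matrix.mulVecLin_apply] at hu
    refine ⟨IsLocalization.mk' T 1 b • (algebraMap R T ∘ u), ?_⟩
    rw [Matrix.mulVecLin_apply, Matrix.mulVec_smul]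
    have h4 : (Q.map (algebraMap R T)).mulVec (algebraMap R T ∘ u) = (b : R) • v := by
      rw [← h1, ← hu]
      funext i
      exact (RingHom.map_mulVec (algebraMap R T) Q u i).symm
    rw [h4]
    funext i
    have h5 : ((b : R) • v) i = algebraMap R T b * v i := Algebra.smul_def _ _
    rw [Pi.smul_apply, h5, smul_eq_mul, ← mul_assoc, IsLocalization.mk'_spec, map_one, one_mul]
  · rintro _ ⟨u, rfl⟩
    rw [LinearMap.mem_ker, Matrix.mulVecLin_apply, Matrix.mulVecLin_apply, Matrix.mulVec_mulVec,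
      ← Matrix.map_mul]
    have h1 : P * Q = 0 := by
      have h2 : P.mulVecLin ∘ₗ Q.mulVecLin = 0 := by
        apply LinearMap.ext
        intro x
        have : Q.mulVecLin x ∈ LinearMap.ker P.mulVecLin := by rw [h]; exact ⟨x, rfl⟩
        exact this
      rw [← Matrix.mulVecLin_mul] at h2
      have h3 : Matrix.mulVecLin (P * Q) = Matrix.mulVecLin 0 := by
        rw [h2, Matrix.mulVecLin_zero]
      exact Matrix.toLin'.injective h3
    rw [h1]
    have : (0 : Matrix n n R).map (algebraMap R T) = 0 := by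
      ext i j
      simp
    rw [this, Matrix.zero_mulVec]

end loc

/-- evaluation at the origin -/
noncomputable def ev0 : RR →+* ℂ := (TrivSqZeroExt.fstHom ℂ ℂ ℂ).toRingHom.comp θ

/-- the maximal ideal of the origin -/
noncomputable def m0 : Ideal RR := RingHom.ker ev0

instance m0_max : m0.IsMaximal :=
  RingHom.ker_isMaximal_of_surjective _ (fun c => ⟨AdjoinRoot.of _ (MvPolynomial.C c), by
    have h1 : θ (AdjoinRoot.of _ (MvPolynomial.C c)) =
        ((algebraMap ℂ (DualNumber ℂ)).comp MvPolynomial.constantCoeff) (MvPolynomial.C c) :=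
      AdjoinRoot.lift_of _
    change TrivSqZeroExt.fst (θ (AdjoinRoot.of _ (MvPolynomial.C c))) = c
    rw [h1, RingHom.comp_apply, MvPolynomial.constantCoeff_C]
    rfl⟩)

/-- the local ring of the origin -/
abbrev T0 : Type := Localization.AtPrime m0

noncomputable def θ0 : T0 →+* DualNumber ℂ :=
  IsLocalization.lift (M := m0.primeCompl) (g := θ) (by
    intro y
    rw [TrivSqZeroExt.isUnit_iff_isUnit_fst, isUnit_iff_ne_zero]
    exact fun h => y.2 h)

lemma θ0_map (r : RR) : θ0 (algebraMap RR T0 r) = θ r := IsLocalization.lift_eq _ r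

theorem unbounded0 : ∃ N : ModuleCat.{0} T0, Module.Finite T0 N ∧
    ∀ n : ℕ, ∃ j, n ≤ j ∧ Nontrivial (Ext N N j) := by
  have := Pool.Agent.TH480.J295.isDomain_RR
  have hff : ff ≠ 0 := (Polynomial.monic_X_pow_add_C g3 (by norm_num)).ne_zero
  obtain ⟨t, ht⟩ : ∃ t : Polynomial S3, t = Polynomial.X := ⟨_, rfl⟩
  obtain ⟨a, ha⟩ : ∃ a : Polynomial S3, a = Polynomial.C (MvPolynomial.X 0 + MvPolynomial.X 1) :=
    ⟨_, rfl⟩
  obtain ⟨b, hb⟩ : ∃ b : Polynomial S3, b = Polynomial.C (MvPolynomial.X 0 ^ 2 -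
    MvPolynomial.X 0 * MvPolynomial.X 1 + MvPolynomial.X 1 ^ 2) := ⟨_, rfl⟩
  obtain ⟨z, hz⟩ : ∃ z : Polynomial S3, z = Polynomial.C (MvPolynomial.X 2) := ⟨_, rfl⟩
  have hff' : ff = t ^ 4 + a * b + z ^ 3 := by rw [ff_eq, ht, ha, hb, hz]
  have hPQ : P4 t a b z * Q4 t a b z = ff • 1 := by rw [P4_mul_Q4, hff']
  have hQP : Q4 t a b z * P4 t a b z = ff • 1 := by rw [Q4_mul_P4, hff']
  have e1 : θ (AdjoinRoot.mk ff t) = DualNumber.eps := by
    rw [ht, AdjoinRoot.mk_X]
    exact AdjoinRoot.lift_root _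
  have e2 : θ (AdjoinRoot.mk ff a) = 0 := by
    rw [ha, AdjoinRoot.mk_C]
    exact (AdjoinRoot.lift_of _).trans (by simp)
  have e3 : θ (AdjoinRoot.mk ff b) = 0 := by
    rw [hb, AdjoinRoot.mk_C]
    exact (AdjoinRoot.lift_of _).trans (by simp)
  have e4 : θ (AdjoinRoot.mk ff z) = 0 := by
    rw [hz, AdjoinRoot.mk_C]
    exact (AdjoinRoot.lift_of _).trans (by simp)
  have k1 := ker_eq_range ff hff (AdjoinRoot.mk ff) AdjoinRoot.mk_surjective
    (fun a => AdjoinRoot.mk_eq_zero) _ _ hPQ hQP
  have k2 := ker_eq_range ff hff (AdjoinRoot.mk ff) AdjoinRoot.mk_surjective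
    (fun a => AdjoinRoot.mk_eq_zero) _ _ hQP hPQ
  have hm : m0.primeCompl ≤ nonZeroDivisors RR := Ideal.primeCompl_le_nonZeroDivisors m0
  have l1 := exact_loc (T := T0) m0.primeCompl hm _ _ k1
  have l2 := exact_loc (T := T0) m0.primeCompl hm _ _ k2
  let π : Polynomial S3 →+* T0 := (algebraMap RR T0).comp (AdjoinRoot.mk ff)
  refine unbounded_of_periodic (Fin 4 → T0) _ _ l1 l2
    fun ⟨γ, hγ⟩ => not_regular π θ0 t a b z ?_ ?_ ?_ ?_ γ hγ
  · exact (θ0_map _).trans e1
  · exact (θ0_map _).trans e2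
  · exact (θ0_map _).trans e3
  · exact (θ0_map _).trans e4

lemma dim_T0 : ringKrullDim T0 = 3 := by
  have h1 : ringKrullDim T0 = m0.height := IsLocalization.AtPrime.ringKrullDim_eq_height m0 T0
  rw [h1, height_RR m0 inferInstance]
  rfl

end Pool.Agent.N108.NC
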