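import Pool.Agent.N108.NC.ProjK
import Pool.Agent.TH480.J295

set_option autoImplicit false
set_option linter.unusedSectionVars false
set_option backward.isDefEq.respectTransparency.types true

open CategoryTheory Abelian Limits Module

namespace Pool.Agent.N108.NC

open Pool.Agent.TH215.TM Pool.Agent.TH350 Pool.Agent.TH159.TM

universe u

section general

variable {R : Type u} [CommRing R] [IsDomain R] [IsNoetherianRing R]
variable {M : Type u} [AddCommGroup M] [Module R M] [Module.Finite R M] [Module.IsReflexive R M]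

lemma smul_top_ne [Nontrivial M] (P : Ideal R) (hP : P.IsMaximal) :
    P • (⊤ : Submodule R M) ≠ ⊤ := by
  intro h
  obtain ⟨r, hr, hr0⟩ := Submodule.exists_sub_one_mem_and_smul_eq_zero_of_fg_of_le_smul P
    (⊤ : Submodule R M) Module.Finite.fg_top h.ge
  obtain ⟨m, hm⟩ := exists_ne (0 : M)
  have h1 : ¬ ∀ u : Module.Dual R M, u m = 0 := fun h =>
    hm ((Module.bijective_dual_eval R M).1 (by
      rw [map_zero]
      exact LinearMap.ext h))
  push Not at h1
  obtain ⟨u, hu⟩ := h1
  have h2 : r * u m = 0 := by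
    rw [← smul_eq_mul, ← map_smul, hr0 m trivial, map_zero]
  have h3 : r = 0 := (mul_eq_zero.1 h2).resolve_right hu
  rw [h3, zero_sub, neg_mem_iff] at hr
  exact hP.ne_top ((Ideal.eq_top_iff_one _).2 hr)

lemma exists_functional [Nontrivial M] (P : Ideal R) (hP : P.IsMaximal) :
    ∃ (l : M →ₗ[R] R ⧸ P) (m : M), l m = 1 := by
  obtain h | ⟨N, hN, hle⟩ := IsCoatomic.eq_top_or_exists_le_coatom (P • (⊤ : Submodule R M))
  · exact absurd h (smul_top_ne P hP)
  have hs : IsSimpleModule R (M ⧸ N) := isSimpleModule_iff_isCoatom.2 hN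
  obtain ⟨I, hI, ⟨e⟩⟩ := isSimpleModule_iff_quot_maximal.1 hs
  have hPI : P ≤ I := by
    intro r hr
    obtain ⟨m, hm⟩ := Submodule.mkQ_surjective _ (e.symm 1)
    have h1 : r • (e.symm 1) = 0 := by
      rw [← hm, ← map_smul, Submodule.mkQ_apply, Submodule.Quotient.mk_eq_zero]
      exact hle (Submodule.smul_mem_smul hr trivial)
    rw [← map_smul, LinearEquiv.map_eq_zero_iff, Algebra.smul_def, mul_one] at h1
    exact Ideal.Quotient.eq_zero_iff_mem.1 h1
  obtain rfl := hP.eq_of_le hI.ne_top hPI
  obtain ⟨m, hm⟩ := Submodule.mkQ_surjective _ (e.symm 1)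
  refine ⟨e.toLinearMap ∘ₗ N.mkQ, m, ?_⟩
  rw [LinearMap.comp_apply, hm]
  exact e.apply_symm_apply 1

theorem proj_of_ext {n : ℕ} (p : (Fin n → R) →ₗ[R] M) (hp : Function.Surjective p)
    (hK : Module.Projective R (LinearMap.ker p))
    (hext : ∀ h : LinearMap.ker p →ₗ[R] M, ∃ H : (Fin n → R) →ₗ[R] M,
      ∀ k : LinearMap.ker p, H k = h k) : Module.Projective R M := by
  rcases subsingleton_or_nontrivial M with hM | hM
  · infer_instance
  let ι := (LinearMap.ker p).subtype
  have hfin : Module.Finite R (Module.Dual R (LinearMap.ker p)) := inferInstance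
  have h1 : (1 : R) ∈ Module.annihilator R (DD ι) := by
    by_contra hcon
    have hne : Module.annihilator R (DD ι) ≠ ⊤ := fun h => hcon (by rw [h]; trivial)
    obtain ⟨P, hP, hle⟩ := Ideal.exists_le_maximal _ hne
    obtain ⟨l, m0, hl⟩ := exists_functional (M := M) P hP
    have hPC : (⊤ : Submodule R (DD ι)) ≤ P • ⊤ := by
      intro x _
      obtain ⟨u, rfl⟩ := Submodule.mkQ_surjective _ x
      obtain ⟨H, hH⟩ := hext (LinearMap.toSpanSingleton R M m0 ∘ₗ u)
      obtain ⟨U, hU⟩ := Module.projective_lifting_property P.mkQ (l ∘ₗ H) P.mkQ_surjective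
      have hv : ∀ k : LinearMap.ker p, u k - U k ∈ P := by
        intro k
        rw [← Submodule.Quotient.mk_eq_zero P, ← Submodule.mkQ_apply, map_sub]
        have e1 : P.mkQ (U k) = l (H k) := LinearMap.congr_fun hU k.1
        have e2 : l (H k) = P.mkQ (u k) := by
          rw [hH]
          change l (u k • m0) = _
          rw [map_smul, hl, Algebra.smul_def, mul_one]
          rfl
        rw [e1, e2, sub_self]
      obtain ⟨k, q, j, -, -, hjq⟩ :=
        Module.Finite.exists_comp_eq_id_of_projective R (LinearMap.ker p)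
      let v : Module.Dual R (LinearMap.ker p) := u - U ∘ₗ ι
      have hv2 : v = ∑ i, v (q (Pi.single i 1)) • (LinearMap.proj i ∘ₗ j) := by
        apply LinearMap.ext
        intro y
        have hy : q (j y) = y := LinearMap.congr_fun hjq y
        conv_lhs => rw [← hy, LinearMap.pi_apply_eq_sum_univ q (j y)]
        rw [map_sum, LinearMap.sum_apply]
        refine Finset.sum_congr rfl fun i _ => ?_
        rw [map_smul, LinearMap.smul_apply, smul_eq_mul, smul_eq_mul, mul_comm]
        congr 2
        congr 1
        ext j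
        simp [Pi.single_apply, eq_comm]
      have hvm : v ∈ P • (⊤ : Submodule R (Module.Dual R (LinearMap.ker p))) := by
        rw [hv2]
        refine Submodule.sum_mem _ fun i _ => ?_
        exact Submodule.smul_mem_smul (hv _) trivial
      have e3 : (LinearMap.range ι.dualMap).mkQ u = (LinearMap.range ι.dualMap).mkQ v := by
        rw [← sub_eq_zero, ← map_sub, Submodule.mkQ_apply, Submodule.Quotient.mk_eq_zero]
        refine ⟨U, ?_⟩
        change U ∘ₗ ι = u - (u - U ∘ₗ ι)
        rw [sub_sub_cancel]
      rw [e3]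
      have h4 : (P • (⊤ : Submodule R (Module.Dual R (LinearMap.ker p)))).map
          (LinearMap.range ι.dualMap).mkQ ≤ P • ⊤ := by
        rw [Submodule.map_smul'']
        exact Submodule.smul_mono le_rfl le_top
      exact h4 ⟨v, hvm, rfl⟩
    obtain ⟨r, hr, hr0⟩ := Submodule.exists_sub_one_mem_and_smul_eq_zero_of_fg_of_le_smul P
      (⊤ : Submodule R (DD ι)) Module.Finite.fg_top hPC
    have hrP : r ∈ P := hle (Module.mem_annihilator.2 fun x => hr0 x trivial)
    have : (1 : R) ∈ P := by
      have := P.sub_mem hrP hr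
      rwa [sub_sub_cancel] at this
    exact hP.ne_top ((Ideal.eq_top_iff_one _).2 this)
  obtain ⟨s, hs⟩ := exists_section ι p hp (LinearMap.exact_subtype_ker_map p) 1 h1
  exact Module.Projective.of_split s p (by
    ext m
    rw [LinearMap.comp_apply, hs, one_smul]
    rfl)

end general

/-- A reflexive module over `R = ℂ[x,y,z,w]/(w⁴+x³+y³+z³)` with maximal Cohen-Macaulay
endomorphism ring is projective. -/
theorem projective_of_modifying (M : Type) [AddCommGroup M] [Module RR M] [Module.Finite RR M]
    [Module.IsReflexive RR M] (hE : IsCM RR (Module.End RR M)) : Module.Projective RR M := by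
  let _ : Module S3 M := Module.compHom M (algebraMap S3 RR)
  have _ : IsScalarTower S3 RR M := IsScalarTower.of_compHom S3 RR M
  have := Pool.Agent.TH480.J295.isDomain_RR
  obtain ⟨n, p, hp⟩ := Module.Finite.exists_fin' RR M
  exact proj_of_ext p hp (projective_K p hp hE) (ext_vanish p hp hE)

end Pool.Agent.N108.NC
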