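import Pool.Agent.N108.NC.Inf
import Pool.Agent.N108.NC.ProjM

/-!
No non-commutative crepant resolutions: the final step.
-/

set_option autoImplicit false
set_option linter.unusedSectionVars false

open CategoryTheory Abelian Limits Module TensorProduct

namespace Pool.Agent.N108.NC

open Pool.Agent.TH215.TM Pool.Agent.TH159.TM Pool.Agent.W506.Hilb

universe u

lemma proj_end {R : Type u} [CommRing R] (M : Type u) [AddCommGroup M] [Module R M]
    [Module.Finite R M] [Module.Projective R M] : Module.Projective R (Module.End R M) := by
  obtain ⟨n, f, g, -, -, hfg⟩ := Module.Finite.exists_comp_eq_id_of_projective R M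
  let i : Module.End R M →ₗ[R] Module.End R (Fin n → R) :=
    { toFun := fun a => g ∘ₗ a ∘ₗ f
      map_add' := by intro a b; ext; simp
      map_smul' := by intro a b; ext; simp }
  let r : Module.End R (Fin n → R) →ₗ[R] Module.End R M :=
    { toFun := fun a => f ∘ₗ a ∘ₗ g
      map_add' := by intro a b; ext; simp
      map_smul' := by intro a b; ext; simp }
  refine Module.Projective.of_split i r ?_
  ext a x
  have := fun x => LinearMap.congr_fun hfg x
  simp only [LinearMap.comp_apply, LinearMap.id_apply] at this
  simp [i, r, this]

/-- If `M` is a finitely generated projective `R`-module and `R_p ⊗ End(M)` is a nonzero ring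
all whose modules have projective dimension less than `k + 1` then so have all `R_p`-modules. -/
theorem pdLT_of_end {R : Type u} [CommRing R] [IsNoetherianRing R] (p : Ideal R) [p.IsPrime]
    (M : Type u) [AddCommGroup M] [Module R M]
    [Module.Finite R M] [Module.Projective R M]
    [Nontrivial (Localization.AtPrime p ⊗[R] Module.End R M)] (k : ℕ)
    (h : ∀ X : ModuleCat.{u} (Localization.AtPrime p ⊗[R] Module.End R M),
      HasProjectiveDimensionLT X (k + 1))
    (N : Type u) [AddCommGroup N] [Module (Localization.AtPrime p) N] :
    PdLT (Localization.AtPrime p) N (k + 1) := by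
  have h1 := proj_end (R := R) M
  have h2 : Module.Projective (Localization.AtPrime p)
      (Localization.AtPrime p ⊗[R] Module.End R M) := inferInstance
  have h3 : Module.Finite (Localization.AtPrime p)
      (Localization.AtPrime p ⊗[R] Module.End R M) := inferInstance
  exact pdLT_of_algebra (Localization.AtPrime p) (Localization.AtPrime p ⊗[R] Module.End R M) k h N

/-- the main input: there is no reflexive module with the two properties -/
theorem no_nccr (M : Type) [AddCommGroup M] [Module RR M] [Module.Finite RR M]
    [Module.IsReflexive RR M] (hE : IsCM RR (Module.End RR M))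
    (hg : (⨆ X : ModuleCat.{0} (T0 ⊗[RR] Module.End RR M), projectiveDimension X) =
      ringKrullDim T0) : False := by
  have hM := projective_of_modifying M hE
  rw [dim_T0] at hg
  have h3 : ∀ X : ModuleCat.{0} (T0 ⊗[RR] Module.End RR M), HasProjectiveDimensionLT X (3 + 1) := by
    intro X
    have h1 : projectiveDimension X ≤ (3 : ℕ) := by
      refine le_trans (le_iSup (fun X : ModuleCat.{0} (T0 ⊗[RR] Module.End RR M) =>
        projectiveDimension X) X) ?_
      rw [hg]
      rfl
    exact (projectiveDimension_le_iff X 3).1 h1
  have hnt : Nontrivial (T0 ⊗[RR] Module.End RR M) := by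
    by_contra hns
    rw [not_nontrivial_iff_subsingleton] at hns
    have h4 : (⨆ X : ModuleCat.{0} (T0 ⊗[RR] Module.End RR M), projectiveDimension X) ≤ ⊥ := by
      refine iSup_le fun X => ?_
      have : Subsingleton X := Module.subsingleton (T0 ⊗[RR] Module.End RR M) X
      rw [(projectiveDimension_eq_bot_iff X).2 (ModuleCat.isZero_of_subsingleton X)]
    rw [hg] at h4
    exact absurd h4 (by decide)
  obtain ⟨N, -, hN⟩ := unbounded0
  have h5 : HasProjectiveDimensionLT N (3 + 1) := pdLT_of_end m0 M 3 h3 N
  obtain ⟨j, hj, hjN⟩ := hN 4
  obtain ⟨x, y, hxy⟩ := hjN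
  apply hxy
  rw [Ext.eq_zero_of_hasProjectiveDimensionLT x 4 hj, Ext.eq_zero_of_hasProjectiveDimensionLT y 4 hj]

end Pool.Agent.N108.NC
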