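import Pool.Agent.N108.NC.Van

set_option autoImplicit false
set_option linter.unusedSectionVars false
set_option backward.isDefEq.respectTransparency.types true

open CategoryTheory Abelian Limits Module

namespace Pool.Agent.N108.NC

open Pool.Agent.TH215.TM Pool.Agent.TH350 Pool.Agent.TH159.TM

/-- coordinates with respect to `1, w, w², w³` -/
noncomputable abbrev co (l : Fin 4) : RR →ₗ[S3] S3 := (bas g3).coord l

lemma bas_eq (i : Fin 4) : bas g3 i = wR ^ (i : ℕ) := bas_apply g3 i

lemma expand (r : RR) : r = co 0 r • (1 : RR) + co 1 r • wR + co 2 r • wR ^ 2 +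
    co 3 r • wR ^ 3 := by
  have h := (bas g3).sum_repr r
  rw [Fin.sum_univ_four, bas_eq, bas_eq, bas_eq, bas_eq] at h
  simp only [Fin.val_zero, pow_zero, Fin.val_one, pow_one, Fin.val_two] at h
  exact h.symm

lemma co_mul (i : Fin 4) (r : RR) : co 3 (wR ^ (i : ℕ) * r) = co i.rev r := by
  have h : (co 3) ∘ₗ (LinearMap.mul S3 RR (wR ^ (i : ℕ))) = co i.rev := by
    apply (bas g3).ext
    intro j
    rw [LinearMap.comp_apply, LinearMap.mul_apply', ← bas_eq, mul_comm]
    exact coord_mul g3 i j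
  exact LinearMap.congr_fun h r

section

variable {X : Type} [AddCommGroup X] [Module RR X] [Module S3 X] [IsScalarTower S3 RR X]

/-- a primitive of `t` for the commutator with `w` -/
noncomputable def prim (t : X →ₗ[S3] RR) : X →ₗ[S3] RR :=
  (co 1 ∘ₗ t + co 2 ∘ₗ t ∘ₗ phiN X + co 3 ∘ₗ t ∘ₗ (phiN X ^ 2)).smulRight (1 : RR) +
  (co 2 ∘ₗ t + co 3 ∘ₗ t ∘ₗ phiN X).smulRight wR + (co 3 ∘ₗ t).smulRight (wR ^ 2)

lemma prim_apply (t : X →ₗ[S3] RR) (v : X) : prim t v =
    (co 1 (t v) + co 2 (t (wR • v)) + co 3 (t (wR ^ 2 • v))) • (1 : RR) +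
    (co 2 (t v) + co 3 (t (wR • v))) • wR + co 3 (t v) • wR ^ 2 := by
  rw [← phiN_pow X 2 v, ← phiN_apply X v]
  rfl

lemma prim_comm (t : X →ₗ[S3] RR)
    (ht : ∀ v, t (wR ^ 3 • v) + wR • t (wR ^ 2 • v) + wR ^ 2 • t (wR • v) + wR ^ 3 • t v = 0)
    (v : X) : wR • prim t v - prim t (wR • v) = t v := by
  have h1 := congrArg (co 3) (ht v)
  rw [map_add, map_add, map_add, map_zero] at h1
  have e1 : co 3 (wR • t (wR ^ 2 • v)) = co 2 (t (wR ^ 2 • v)) := by
    have := co_mul 1 (t (wR ^ 2 • v))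
    rw [Fin.val_one, pow_one] at this
    exact this
  have e2 : co 3 (wR ^ 2 • t (wR • v)) = co 1 (t (wR • v)) := co_mul 2 (t (wR • v))
  have e3 : co 3 (wR ^ 3 • t v) = co 0 (t v) := co_mul 3 (t v)
  rw [e1, e2, e3] at h1
  rw [prim_apply, prim_apply, smul_smul, smul_smul, ← pow_two, ← pow_succ]
  conv_rhs => rw [expand (t v)]
  have h2 : co 3 (t (wR ^ 3 • v)) = -(co 2 (t (wR ^ 2 • v)) + co 1 (t (wR • v)) + co 0 (t v)) := by
    linear_combination h1
  rw [h2]
  simp only [smul_eq_mul, Algebra.smul_def, map_add, map_neg]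
  ring

end

section main

variable {M : Type} [AddCommGroup M] [Module RR M] [Module S3 M] [IsScalarTower S3 RR M]
  [Module.Finite RR M] [Module.IsReflexive RR M] {n : ℕ} (p : (Fin n → RR) →ₗ[RR] M)
  (hp : Function.Surjective p)

include hp

theorem rigid_K (hE : IsCM RR (Module.End RR M)) (a : Module.End S3 (LinearMap.ker p))
    (ha : tr4 (phiN (LinearMap.ker p)) a = 0) :
    ∃ b : Module.End S3 (LinearMap.ker p),
      a = phiN (LinearMap.ker p) * b - b * phiN (LinearMap.ker p) := by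
  have ha' : ∀ v, a (wR ^ 3 • v) + wR • a (wR ^ 2 • v) + wR ^ 2 • a (wR • v) +
      wR ^ 3 • a v = 0 := by
    intro v
    rw [← tr4_apply, ha]
    rfl
  let t : Fin n → (LinearMap.ker p →ₗ[S3] RR) := fun i =>
    ((LinearMap.proj i : (Fin n → RR) →ₗ[RR] RR).restrictScalars S3) ∘ₗ
      ((LinearMap.ker p).subtype.restrictScalars S3) ∘ₗ a
  have ht : ∀ i v, t i v = (a v).1 i := fun i v => rfl
  let c : LinearMap.ker p →ₗ[S3] (Fin n → RR) := LinearMap.pi fun i => prim (t i)
  have hc : ∀ v, wR • c v - c (wR • v) = (a v).1 := by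
    intro v
    ext i
    have h1 : ∀ v, t i (wR ^ 3 • v) + wR • t i (wR ^ 2 • v) + wR ^ 2 • t i (wR • v) +
        wR ^ 3 • t i v = 0 := by
      intro v
      exact congrFun (congrArg Subtype.val (ha' v)) i
    exact prim_comm (t i) h1 v
  have hpc : ∀ v, p (c (wR • v)) = wR • p (c v) := by
    intro v
    have h1 : c (wR • v) = wR • c v - (a v).1 := by rw [← hc]; abel
    rw [h1, map_sub, LinearMap.mem_ker.1 (a v).2, sub_zero, map_smul]
  obtain ⟨H, hH⟩ := ext_vanish p hp hE (linOfComm (p.restrictScalars S3 ∘ₗ c) hpc)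
  obtain ⟨H', hH'⟩ := Module.projective_lifting_property p H hp
  have hH'' : ∀ x, p (H' x) = H x := fun x => LinearMap.congr_fun hH' x
  let b : Module.End S3 (LinearMap.ker p) :=
    { toFun := fun v => ⟨c v - H' v.1, by
        rw [LinearMap.mem_ker, map_sub, hH'', hH]
        exact sub_self _⟩
      map_add' := by
        intro x y
        apply Subtype.ext
        change c (x + y) - H' (x.1 + y.1) = (c x - H' x.1) + (c y - H' y.1)
        rw [map_add, map_add]
        abel
      map_smul' := by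
        intro r x
        apply Subtype.ext
        change c (r • x) - H' (r • x.1) = r • (c x - H' x.1)
        rw [map_smul, smul_sub]
        congr 1
        exact (H'.restrictScalars S3).map_smul r x.1 }
  refine ⟨b, ?_⟩
  apply LinearMap.ext
  intro v
  apply Subtype.ext
  change (a v).1 = wR • (c v - H' v.1) - (c (wR • v) - H' (wR • v.1))
  have hH3 : H' (wR • v.1) = wR • H' v.1 := map_smul H' wR v.1
  rw [← hc, smul_sub, hH3]
  abel

theorem projective_K (hE : IsCM RR (Module.End RR M)) : Module.Projective RR (LinearMap.ker p) := by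
  have hK := projective_S3 (LinearMap.ker p) (ker_CM p hp)
  have hf : Module.Finite S3 (LinearMap.ker p) := Module.Finite.trans RR _
  have hφ := phiN_pow_four (LinearMap.ker p)
  have hr := rigid_K p hp hE
  obtain ⟨a, ha⟩ := J291.chain (LinearMap.ker p) (phiN (LinearMap.ker p)) hφ hr
    (J289.trace_X2 (LinearMap.ker p) (phiN (LinearMap.ker p)) hφ)
    (J290.exists_tau (LinearMap.ker p) (phiN (LinearMap.ker p)) hφ hr)
  exact higman 4 (by norm_num) g3 (LinearMap.ker p) (phiN (LinearMap.ker p)) (fun v => rfl) a ha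

end main

end Pool.Agent.N108.NC
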