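import Pool.Agent.N108.NC.Dim
import Pool.Agent.N108.NC.Frob
import Pool.Agent.TH350.Conn

set_option autoImplicit false
set_option linter.unusedSectionVars false

open CategoryTheory Abelian Limits Module

namespace Pool.Agent.N108.NC

open Pool.Agent.TH215.TM Pool.Agent.TH350

section lin

variable {X Y : Type} [AddCommGroup X] [Module RR X] [Module S3 X] [IsScalarTower S3 RR X]
  [AddCommGroup Y] [Module RR Y] [Module S3 Y] [IsScalarTower S3 RR Y]

/-- an `S`-linear map which commutes with `w` is `R`-linear -/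
noncomputable def linOfComm (f : X →ₗ[S3] Y) (hw : ∀ x, f (wR • x) = wR • f x) : X →ₗ[RR] Y where
  toFun := f
  map_add' := f.map_add
  map_smul' := by
    intro r v
    simp only [RingHom.id_apply]
    induction r using AdjoinRoot.induction_on with
    | ih p =>
      induction p using Polynomial.induction_on generalizing v with
      | C a =>
        have e : (AdjoinRoot.mk (Polynomial.X ^ 4 + Polynomial.C g3) (Polynomial.C a) : RR) =
          algebraMap S3 RR a := rfl
        rw [e, algebraMap_smul, algebraMap_smul, map_smul]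
      | add p q hp hq =>
        rw [map_add, add_smul, add_smul, map_add, hp, hq]
      | monomial n a ih =>
        have e : (AdjoinRoot.mk (Polynomial.X ^ 4 + Polynomial.C g3)
            (Polynomial.C a * Polynomial.X ^ (n + 1)) : RR) =
            (AdjoinRoot.mk (Polynomial.X ^ 4 + Polynomial.C g3)
            (Polynomial.C a * Polynomial.X ^ n) : RR) * wR := by
          rw [pow_succ (Polynomial.X : Polynomial S3) n, ← mul_assoc, map_mul]
          rfl
        rw [e, mul_smul, mul_smul, ih, hw]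

lemma linOfComm_apply (f : X →ₗ[S3] Y) (hw : ∀ x, f (wR • x) = wR • f x) (x : X) :
    linOfComm f hw x = f x := rfl

lemma wR_pow_four_smul (x : X) : wR ^ 4 • x = (-g3 : S3) • x := by
  have h := LinearMap.congr_fun (phiN_pow_four X) x
  rw [phiN_pow] at h
  rw [h, neg_smul]
  rfl

/-- the trace of an `S`-linear map, as an `S`-linear map -/
noncomputable def trS (t : X →ₗ[S3] Y) : X →ₗ[S3] Y :=
  ∑ j ∈ Finset.range 4, (phiN Y ^ j) ∘ₗ t ∘ₗ (phiN X ^ (3 - j))

lemma trS_apply (t : X →ₗ[S3] Y) (x : X) :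
    trS t x = t (wR ^ 3 • x) + wR • t (wR ^ 2 • x) + wR ^ 2 • t (wR • x) + wR ^ 3 • t x := by
  have h : ∀ j, ((phiN Y ^ j) ∘ₗ t ∘ₗ (phiN X ^ (3 - j))) x = wR ^ j • t (wR ^ (3 - j) • x) := by
    intro j
    rw [LinearMap.comp_apply, LinearMap.comp_apply, phiN_pow, phiN_pow]
  rw [trS, LinearMap.sum_apply, Finset.sum_congr rfl (fun j _ => h j)]
  simp only [Finset.sum_range_succ,
    Finset.sum_range_zero, zero_add, pow_zero, one_smul, pow_one, Nat.sub_zero, Nat.sub_self,
    show 3 - 1 = 2 from rfl, show 3 - 2 = 1 from rfl]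

lemma trS_comm (t : X →ₗ[S3] Y) (x : X) : trS t (wR • x) = wR • trS t x := by
  rw [trS_apply, trS_apply, smul_smul, smul_smul, smul_smul, ← pow_succ, ← pow_succ, ← pow_two,
    smul_add, smul_add, smul_add, smul_smul, smul_smul, ← pow_succ', smul_smul, ← pow_succ',
    wR_pow_four_smul, wR_pow_four_smul, map_smul, ← pow_two]
  abel

/-- the trace of an `S`-linear map, as an `R`-linear map -/
noncomputable def trR (t : X →ₗ[S3] Y) : X →ₗ[RR] Y := linOfComm (trS t) (trS_comm t)

lemma trR_apply (t : X →ₗ[S3] Y) (x : X) :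
    trR t x = t (wR ^ 3 • x) + wR • t (wR ^ 2 • x) + wR ^ 2 • t (wR • x) + wR ^ 3 • t x :=
  trS_apply t x

lemma tr4_apply (t : Module.End S3 X) (x : X) :
    tr4 (phiN X) t x = t (wR ^ 3 • x) + wR • t (wR ^ 2 • x) + wR ^ 2 • t (wR • x) +
      wR ^ 3 • t x := by
  have h : ∀ j, (phiN X ^ j * t * phiN X ^ (3 - j)) x = wR ^ j • t (wR ^ (3 - j) • x) := by
    intro j
    rw [Module.End.mul_apply, Module.End.mul_apply, phiN_pow, phiN_pow]
  rw [tr4, LinearMap.sum_apply, Finset.sum_congr rfl (fun j _ => h j)]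
  simp only [Finset.sum_range_succ,
    Finset.sum_range_zero, zero_add, pow_zero, one_smul, pow_one, Nat.sub_zero, Nat.sub_self,
    show 3 - 1 = 2 from rfl, show 3 - 2 = 1 from rfl]

end lin

section factor

variable {F M : Type} [AddCommGroup F] [Module RR F] [Module S3 F] [IsScalarTower S3 RR F]
  [AddCommGroup M] [Module RR M] [Module S3 M] [IsScalarTower S3 RR M]
  [Module.Projective S3 F]

theorem exists_factor (p : F →ₗ[RR] M) (a a' : S3) (s s' : M →ₗ[S3] F)
    (hs : ∀ m, p (s m) = a • m) (hs' : ∀ m, p (s' m) = a' • m) (i : Fin 3) :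
    ∃ α : M →ₗ[RR] F, ∀ m, p (α m) = (-(a' * (a * MvPolynomial.pderiv i g3)) : S3) • m := by
  obtain ⟨N, hN⟩ := Conn.exists_connection (k := ℂ) (MvPolynomial.pderiv i : Derivation ℂ S3 S3) F
  have hpS : ∀ (r : S3) (x : F), p (r • x) = r • p x := fun r x => (p.restrictScalars S3).map_smul r x
  let N' : M →+ M := p.toAddMonoidHom.comp (N.comp s.toAddMonoidHom)
  have hN' : ∀ (r : S3) (x : M), N' (r • x) = (fun f : S3 => a * MvPolynomial.pderiv i f) r • x + r • N' x := by
    intro r x
    change p (N (s (r • x))) = (a * MvPolynomial.pderiv i r) • x + r • p (N (s x))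
    rw [map_smul, hN, map_add, hpS, hpS, hs, smul_smul, mul_comm]
  let c := Conn.comm (fun f : S3 => a * MvPolynomial.pderiv i f) N' hN' (phiN M)
  have hc := Conn.comm_trace (fun f : S3 => a * MvPolynomial.pderiv i f) N' hN' (phiN M) 4 g3
    (phiN_pow_four M)
  have hc' : tr4 (phiN M) c = -((a * MvPolynomial.pderiv i g3) • (1 : Module.End S3 M)) := hc
  refine ⟨trR (s' ∘ₗ c), ?_⟩
  intro m
  have h1 := LinearMap.congr_fun hc' m
  rw [tr4_apply] at h1
  rw [trR_apply]
  simp only [LinearMap.comp_apply, map_add, map_smul, hs']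
  rw [smul_comm wR a', smul_comm (wR ^ 2) a', smul_comm (wR ^ 3) a', ← smul_add, ← smul_add,
    ← smul_add, h1]
  change a' • -((a * MvPolynomial.pderiv i g3) • m) = _
  rw [smul_neg, smul_smul, neg_smul]

end factor

end Pool.Agent.N108.NC
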