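import Pool.Agent.N108.NC.Trace

set_option autoImplicit false
set_option linter.unusedSectionVars false
set_option backward.isDefEq.respectTransparency.types true

open CategoryTheory Abelian Limits Module

namespace Pool.Agent.N108.NC

open Pool.Agent.TH215.TM Pool.Agent.TH350 Pool.Agent.TH159.TM

lemma cm_dp {X : Type} [AddCommGroup X] [Module RR X] (h : IsCM RR X) (n : Ideal RR)
    (hn : n.IsMaximal) : Dp (R := RR) (RR ⧸ n) X 3 := by
  intro i hi
  refine h.2 n hn i ?_
  rw [height_RR n hn]
  exact_mod_cast hi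

lemma dp_cm {X : Type} [AddCommGroup X] [Module RR X] (hf : Module.Finite RR X)
    (h : ∀ n : Ideal RR, n.IsMaximal → Dp (R := RR) (RR ⧸ n) X 3) : IsCM RR X := by
  refine ⟨hf, fun n hn i hi => h n hn i ?_⟩
  rw [height_RR n hn] at hi
  exact_mod_cast hi

lemma dp_reflexive (M : Type) [AddCommGroup M] [Module RR M] [Module.Finite RR M]
    [Module.IsReflexive RR M] (n : Ideal RR) (hn : n.IsMaximal) :
    Dp (R := RR) (RR ⧸ n) M 2 := by
  have h1 : Module.Finite RR (Module.Dual RR M) := inferInstance
  exact dp_equiv (Module.evalEquiv RR M) (dp_hom (Module.Dual RR M) ((cm_dp isCM_RR n hn).mono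
    (by omega)))

lemma maximal_of_vars (q : Ideal S3) [hq : q.IsPrime] (h : ∀ i : Fin 3, MvPolynomial.X i ∈ q) :
    q.IsMaximal := by
  have h1 : ∀ r : S3, r - MvPolynomial.C (MvPolynomial.constantCoeff r) ∈ q := by
    intro r
    induction r using MvPolynomial.induction_on with
    | C a => simp
    | add p r hp hr =>
      have : p + r - MvPolynomial.C (MvPolynomial.constantCoeff (p + r)) =
          (p - MvPolynomial.C (MvPolynomial.constantCoeff p)) +
          (r - MvPolynomial.C (MvPolynomial.constantCoeff r)) := by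
        rw [map_add, map_add]; ring
      rw [this]
      exact Ideal.add_mem _ hp hr
    | mul_X p i _ =>
      rw [map_mul, MvPolynomial.constantCoeff_X, mul_zero, map_zero, sub_zero]
      exact Ideal.mul_mem_left _ _ (h i)
  have h2 : RingHom.ker (MvPolynomial.constantCoeff : S3 →+* ℂ) ≤ q := by
    intro r hr
    have := h1 r
    rw [RingHom.mem_ker.1 hr, map_zero, sub_zero] at this
    exact this
  have h3 : (RingHom.ker (MvPolynomial.constantCoeff : S3 →+* ℂ)).IsMaximal :=
    RingHom.ker_isMaximal_of_surjective _ (fun c => ⟨MvPolynomial.C c, by simp⟩)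
  rwa [← h3.eq_of_le hq.ne_top h2]

section main

variable {M : Type} [AddCommGroup M] [Module RR M] [Module S3 M] [IsScalarTower S3 RR M]
  [Module.Finite RR M] [Module.IsReflexive RR M] {n : ℕ} (p : (Fin n → RR) →ₗ[RR] M)
  (hp : Function.Surjective p)

include hp

lemma ker_CM : IsCM RR (LinearMap.ker p) := by
  refine dp_cm inferInstance fun m hm => ?_
  exact dp_left (LinearMap.ker p).subtype p (Submodule.injective_subtype _) hp
    (LinearMap.exact_subtype_ker_map p) (dp_pi (cm_dp isCM_RR m hm) n) (dp_reflexive M m hm)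

lemma factor_prime (q : Ideal S3) [hq : q.IsPrime]
    (h : ∀ u : S3, (∃ α : M →ₗ[RR] (Fin n → RR), ∀ m, p (α m) = u • m) → u ∈ q) :
    q.IsMaximal := by
  have hK := projective_S3 (LinearMap.ker p) (ker_CM p hp)
  by_cases hs : ∀ a : S3, (∃ s : M →ₗ[S3] (Fin n → RR), ∀ m, p (s m) = a • m) → a ∈ q
  · have : Module.Finite S3 (LinearMap.ker p) := Module.Finite.trans RR _
    have h1 : ∀ m : M, (∀ ν : Module.Dual S3 M, ν m = 0) → m = 0 := refl_sep (Z := M) g3
    have h2 : ∀ θ : Module.Dual S3 M →ₗ[S3] S3, ∃ m : M, ∀ ν, θ ν = ν m :=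
      refl_eval (Z := M) g3
    let ι' : LinearMap.ker p →ₗ[S3] (Fin n → RR) := (LinearMap.ker p).subtype.restrictScalars S3
    let p' : (Fin n → RR) →ₗ[S3] M := p.restrictScalars S3
    have hι' : Function.Injective ι' := Submodule.injective_subtype _
    have hp' : Function.Surjective p' := hp
    have hex : Function.Exact ι' p' := LinearMap.exact_subtype_ker_map p
    exact prime_maximal ι' p' hι' hp' hex h1 h2 q hs
  · push Not at hs
    obtain ⟨a, ⟨s, hs⟩, ha⟩ := hs
    apply maximal_of_vars
    intro i
    have h1 := h _ (exists_factor p a a s s hs hs i)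
    have hD : (MvPolynomial.pderiv i) g3 = (MvPolynomial.C 3 : S3) * MvPolynomial.X i ^ 2 := by
      unfold g3
      fin_cases i <;> simp [Derivation.leibniz_pow, MvPolynomial.pderiv_X] <;> rfl
    have h3 : (MvPolynomial.C 3 : S3) ∉ q := by
      intro h3
      apply hq.ne_top
      apply Ideal.eq_top_of_isUnit_mem _ h3
      exact (isUnit_iff_ne_zero.2 (by norm_num)).map _
    rw [neg_mem_iff, hD] at h1
    exact hq.mem_of_pow_mem 2 ((((hq.mem_or_mem ((hq.mem_or_mem ((hq.mem_or_mem h1).resolve_left
      ha)).resolve_left ha)).resolve_left h3)))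

theorem ext_vanish (hE : IsCM RR (Module.End RR M)) (h : LinearMap.ker p →ₗ[RR] M) :
    ∃ H : (Fin n → RR) →ₗ[RR] M, ∀ k : LinearMap.ker p, H k = h k := by
  let ρ : ((Fin n → RR) →ₗ[RR] M) →ₗ[RR] (LinearMap.ker p →ₗ[RR] M) :=
    LinearMap.lcomp RR M (LinearMap.ker p).subtype
  let δ : Module.End RR M →ₗ[RR] ((Fin n → RR) →ₗ[RR] M) := LinearMap.lcomp RR M p
  let W := (LinearMap.ker p →ₗ[RR] M) ⧸ LinearMap.range ρ
  have hW : ∀ m : Ideal RR, m.IsMaximal → Dp (R := RR) (RR ⧸ m) W 1 := by
    intro m hm
    have h1 : Dp (R := RR) (RR ⧸ m) ((Fin n → RR) →ₗ[RR] M) 2 :=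
      dp_equiv (LinearEquiv.piRing RR M (Fin n) RR) (dp_pi (dp_reflexive M m hm) n)
    have h2 : Dp (R := RR) (RR ⧸ m) (LinearMap.range ρ) 2 := by
      refine dp_right δ ρ.rangeRestrict ?_ ρ.surjective_rangeRestrict ?_ (cm_dp hE m hm) h1
      · intro a b hab
        ext z
        obtain ⟨y, rfl⟩ := hp z
        exact LinearMap.congr_fun hab y
      · intro y
        constructor
        · intro hy
          have hker : LinearMap.ker p ≤ LinearMap.ker y := by
            intro x hx
            have := congrArg Subtype.val hy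
            exact LinearMap.congr_fun this ⟨x, hx⟩
          refine ⟨(LinearMap.ker p).liftQ y hker ∘ₗ
            (LinearMap.quotKerEquivOfSurjective p hp).symm.toLinearMap, ?_⟩
          apply LinearMap.ext
          intro x
          change (LinearMap.ker p).liftQ y hker
            ((LinearMap.quotKerEquivOfSurjective p hp).symm (p _)) = _
          have e : (LinearMap.quotKerEquivOfSurjective p hp).symm (p x) =
              (LinearMap.ker p).mkQ x := by
            rw [LinearEquiv.symm_apply_eq]
            rfl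
          rw [e]
          rfl
        · rintro ⟨z, rfl⟩
          apply Subtype.ext
          apply LinearMap.ext
          intro v
          change z (p v.1) = 0
          rw [LinearMap.mem_ker.1 v.2, map_zero]
    have h3 : Dp (R := RR) (RR ⧸ m) (LinearMap.ker p →ₗ[RR] M) 2 :=
      dp_hom (LinearMap.ker p) (dp_reflexive M m hm)
    exact dp_right (LinearMap.range ρ).subtype (LinearMap.range ρ).mkQ
      (Submodule.injective_subtype _) (Submodule.mkQ_surjective _)
      (LinearMap.exact_subtype_mkQ _) h2 (h3.mono (by omega))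
  have hu : ∀ u : S3, (∃ α : M →ₗ[RR] (Fin n → RR), ∀ m, p (α m) = u • m) →
      ∀ w : W, algebraMap S3 RR u • w = 0 := by
    rintro u ⟨α, hα⟩ w
    obtain ⟨h, rfl⟩ := Submodule.mkQ_surjective _ w
    rw [← map_smul, Submodule.mkQ_apply, Submodule.Quotient.mk_eq_zero]
    let θ : (Fin n → RR) →ₗ[RR] LinearMap.ker p :=
      (algebraMap S3 RR u • LinearMap.id - α ∘ₗ p).codRestrict _ (by
        intro y
        rw [LinearMap.mem_ker]
        change p (algebraMap S3 RR u • y - α (p y)) = 0
        rw [map_sub, map_smul, hα, algebraMap_smul, sub_self])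
    refine ⟨h ∘ₗ θ, ?_⟩
    apply LinearMap.ext
    intro k
    change h (θ k) = algebraMap S3 RR u • h k
    rw [← map_smul]
    congr 1
    apply Subtype.ext
    change algebraMap S3 RR u • k.1 - α (p k.1) = _
    rw [LinearMap.mem_ker.1 k.2, map_zero, sub_zero]
    rfl
  have hsub : Subsingleton W := by
    by_contra hns
    rw [not_subsingleton_iff_nontrivial] at hns
    obtain ⟨P, hP⟩ := associatedPrimes.nonempty RR W
    have hP' : IsAssociatedPrime P W := hP
    rw [isAssociatedPrime_iff_exists_injective_linearMap] at hP'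
    obtain ⟨hPp, f, hf⟩ := hP'
    have hq : (P.comap (algebraMap S3 RR)).IsMaximal := by
      apply factor_prime p hp
      intro u hu'
      have h1 : algebraMap S3 RR u • f 1 = 0 := hu u hu' _
      rw [← map_smul, ← map_zero f] at h1
      have h2 := hf h1
      rw [Algebra.smul_def, mul_one] at h2
      have h3 : algebraMap S3 RR u ∈ P := Ideal.Quotient.eq_zero_iff_mem.1 h2
      exact h3
    have hPm : P.IsMaximal := Ideal.isMaximal_of_isIntegral_of_isMaximal_comap P hq
    have h0 := (dp_one_iff.1 (hW P hPm)) f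
    have h1 : f 1 = f 0 := by rw [h0]; rfl
    have h2 := hf h1
    exact one_ne_zero h2
  have := hsub.elim ((LinearMap.range ρ).mkQ h) 0
  rw [Submodule.mkQ_apply, Submodule.Quotient.mk_eq_zero] at this
  obtain ⟨H, hH⟩ := this
  exact ⟨H, fun k => LinearMap.congr_fun hH k⟩

end main

end Pool.Agent.N108.NC
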